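import Pool.Agent.J6H92.Fac.Scale
import Pool.Agent.Results.MP_71ac24_nt.LossFactor

/-!
# Montgomery's large values conjecture as a weighted `ℓ²` inequality (MP_71ac24_nt)

`DP N a t = ∑_{n ≤ N} a_n n^{it}`, `dualSum S b n = ∑_{t ∈ S} b_t n^{it}`. For a finite set `S` of real
numbers and a bound `M`:

* `Bounded N S M`: `∑_{t ∈ S} |DP a t|² ≤ M` for all coefficients with `|a_n| ≤ 1`;
* `Vector N S M`: the same for coefficients in the unit ball of any finite dimensional Hilbert space;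
* `Dual N S M`: `(∑_{n ≤ N} |dualSum b n|)² ≤ M ∑ |b_t|²`;
* `WeakDual N S M`: `(V #{n ≤ N : |dualSum b n| ≥ V})² ≤ M ∑ |b_t|²` for all `V > 0`;
* `Weighted N S M`: there are weights `λ_n ≥ 0` with `∑_{n ≤ N} λ_n = 1`, which depend on `S` only, such
  that `∑_{t ∈ S} |DP a (t + v)|² ≤ M ∑ λ_n |a_n|²` for all coefficients and all real `v`;
* `Halving N S M`: every nonempty set `I` of integers in `[1, N]` has a subset `J` with `|I| ≤ 2 |J|` such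
  that `∑_{t ∈ S} |DP a (t + v)|² ≤ (M / |I|) ∑ |a_n|²` for all real `v` and all coefficients supported
  on `J`.

`Scales P`: for every `ε > 0` there is `C > 0` such that `P N S (C N^ε (N + |S|) N)` for all `N ≥ 1`, all
`T ≤ N²` and all `1`-separated sets `S ⊂ [0, T]`; the conjecture is `Scales Bounded`.
-/

set_option autoImplicit false

open Finset

namespace Pool.Agent.Results.MP_71ac24_nt.Factorization

open Pool.Agent.J6H92.Fac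

/-- Montgomery's conjecture, as in the frozen statement `S17395`. -/
def Montgomery : Prop :=
    ∀ ε : ℝ, 0 < ε → ∃ C : ℝ, 0 < C ∧
      ∀ N : ℕ, 1 ≤ N → ∀ T : ℝ, T ≤ (N : ℝ) ^ 2 →
        ∀ a : ℕ → ℂ, (∀ n, ‖a n‖ ≤ 1) →
          ∀ S : Finset ℝ, (∀ t ∈ S, 0 ≤ t ∧ t ≤ T) →
            (∀ t ∈ S, ∀ u ∈ S, t ≠ u → 1 ≤ |t - u|) →
              ∑ t ∈ S, ‖∑ n ∈ Finset.Icc 1 N,
                  a n * Complex.exp (Complex.I * (t : ℂ) * (Real.log (n : ℝ) : ℂ))‖ ^ 2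
                ≤ C * (N : ℝ) ^ ε * ((N : ℝ) + (S.card : ℝ)) * (N : ℝ)

theorem montgomery_iff : Montgomery ↔ Scales Bounded := by
  constructor
  · intro h ε hε
    obtain ⟨C, hC, h1⟩ := h ε hε
    exact ⟨C, hC, fun N hN T hT S hS1 hS2 a ha => h1 N hN T hT a ha S hS1 hS2⟩
  · intro h ε hε
    obtain ⟨C, hC, h1⟩ := h ε hε
    exact ⟨C, hC, fun N hN T hT a ha S hS1 hS2 => h1 N hN T hT S hS1 hS2 a ha⟩

theorem cube_root {N : ℕ} (hN : 64 ^ 3 ≤ N) :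
    64 ≤ (N : ℝ) ^ (1 / 3 : ℝ) ∧ ((N : ℝ) ^ (1 / 3 : ℝ)) ^ 3 = N := by
  have hN' : (64 : ℝ) ^ 3 ≤ N := by exact_mod_cast hN
  have h1 : ((N : ℝ) ^ (1 / 3 : ℝ)) ^ 3 = N := by
    rw [← Real.rpow_natCast, ← Real.rpow_mul (Nat.cast_nonneg _)]
    norm_num
  refine ⟨?_, h1⟩
  have h0 : (0 : ℝ) ≤ (N : ℝ) ^ (1 / 3 : ℝ) := Real.rpow_nonneg (Nat.cast_nonneg _) _
  rw [← pow_le_pow_iff_left₀ (by norm_num) h0 three_ne_zero, h1]
  exact hN'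

/-- **Equivalent forms of Montgomery's conjecture, and their limits.** -/
theorem result :
    -- (A) the equivalent forms
    List.TFAE [Montgomery, Scales Vector, Scales Dual, Scales WeakDual, Scales Weighted,
      Scales Halving] ∧
    -- (B) the same for one set of points
    (∀ (N : ℕ) (S : Finset ℝ) (M : ℝ), 1 ≤ N → 0 ≤ M →
      (Bounded N S M → Weighted N S (96 * M)) ∧
      (Weighted N S M → Vector N S M ∧ Halving N S (2 * M)) ∧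
      (Halving N S M → Bounded N S (((Nat.log 2 N : ℝ) + 1) ^ 2 * M))) ∧
    -- (C) the weights must depend on the set of points
    (∀ N : ℕ, 64 ^ 3 ≤ N → ∀ lam : ℕ → ℝ, (∀ n, 0 ≤ lam n) → ∑ n ∈ Icc 1 N, lam n = 1 →
      ∃ (S : Finset ℝ) (a : ℕ → ℂ), (∀ t ∈ S, 0 ≤ t ∧ t ≤ (N : ℝ) ^ 2) ∧
        (∀ t ∈ S, ∀ u ∈ S, t ≠ u → 1 ≤ |t - u|) ∧ S.card ≤ N ∧ (∀ n, ‖a n‖ ≤ 1) ∧
        1 / 20000 * (N : ℝ) ^ (1 / 3 : ℝ) * ((N : ℝ) + S.card) * N * ∑ n ∈ Icc 1 N, lam n * ‖a n‖ ^ 2 <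
          ∑ t ∈ S, ‖DP N a t‖ ^ 2) ∧
    -- (D) the deleted integers must depend on the set of points
    (∀ N : ℕ, 64 ^ 3 ≤ N → ∀ E ⊆ Icc 1 N, 8 * E.card ≤ N →
      ∃ (S : Finset ℝ) (a : ℕ → ℂ), (∀ t ∈ S, 0 ≤ t ∧ t ≤ (N : ℝ) ^ 2) ∧
        (∀ t ∈ S, ∀ u ∈ S, t ≠ u → 1 ≤ |t - u|) ∧ S.card ≤ N ∧ (∀ n, ‖a n‖ ≤ 1) ∧
        (∀ n ∈ E, a n = 0) ∧
        1 / 20000 * (N : ℝ) ^ (1 / 3 : ℝ) * ((N : ℝ) + S.card) * ∑ n ∈ Icc 1 N, ‖a n‖ ^ 2 <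
          ∑ t ∈ S, ‖DP N a t‖ ^ 2) ∧
    -- (E) the `ℓ^p` form fails for `p < 4`
    (∀ N : ℕ, 64 ^ 3 ≤ N → ∀ p : ℝ, 1 ≤ p →
      ∃ (S : Finset ℝ) (a : ℕ → ℂ), (∀ t ∈ S, 0 ≤ t ∧ t ≤ (N : ℝ) ^ 2) ∧
        (∀ t ∈ S, ∀ u ∈ S, t ≠ u → 1 ≤ |t - u|) ∧ S.card ≤ N ∧ (∀ n, ‖a n‖ ≤ 1) ∧
        1 / 20000 * (N : ℝ) ^ ((4 - p) / (3 * p)) * ((N : ℝ) + S.card) * (N : ℝ) ^ (1 - 2 / p) *
            (∑ n ∈ Icc 1 N, ‖a n‖ ^ p) ^ (2 / p) <
          ∑ t ∈ S, ‖DP N a t‖ ^ 2) ∧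
    -- (F) the loss is necessary after the deletions as well
    (∃ c δ : ℝ, 0 < c ∧ 0 < δ ∧ ∃ N₀ : ℕ, ∀ N : ℕ, N₀ ≤ N → ∀ T : ℝ, (N : ℝ) ≤ T →
      ∃ S : Finset ℝ, (∀ t ∈ S, 0 ≤ t ∧ t ≤ T) ∧ (∀ t ∈ S, ∀ u ∈ S, t ≠ u → 1 ≤ |t - u|) ∧
        S.card ≤ N ∧
        ¬ Halving N S (δ * min (T / N) (Real.exp (c * Real.log N / Real.log (Real.log N))) /
          ((Nat.log 2 N : ℝ) + 1) ^ 2 * (((N : ℝ) + (S.card : ℝ)) * (N : ℝ)))) := by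
  refine ⟨?_, ?_, ?_, ?_, ?_, ?_⟩
  · have h := forms
    rw [← montgomery_iff] at h
    exact h
  · intro N S M hN hM
    exact ⟨fun h => weighted_of_bounded hN h, fun h => ⟨vector_of_weighted hM h,
      halving_of_weighted hM h⟩, fun h => bounded_of_halving hM h⟩
  · intro N hN lam h0 h1
    obtain ⟨hc, hcN⟩ := cube_root hN
    exact no_weights N _ hc hcN lam h0 h1
  · intro N hN E hE hEc
    obtain ⟨hc, hcN⟩ := cube_root hN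
    exact no_deletion N _ hc hcN E hE hEc
  · intro N hN p hp
    obtain ⟨hc, hcN⟩ := cube_root hN
    exact no_lp N _ hc hcN p hp
  · obtain ⟨c, δ, hc, hδ, N₀, h⟩ := Pool.Agent.Results.MP_71ac24_nt.LossFactor.result
    refine ⟨c, δ / 2, hc, by linarith, max N₀ 1, fun N hN T hT => ?_⟩
    have hN1 : 1 ≤ N := le_trans (le_max_right _ _) hN
    have hNr : (1 : ℝ) ≤ N := by exact_mod_cast hN1
    obtain ⟨a, ha, S, hS1, hS2, hS3, hS4⟩ := h N (le_trans (le_max_left _ _) hN) T hT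
    refine ⟨S, hS1, hS2, by exact_mod_cast hS3, fun hcon => ?_⟩
    obtain ⟨E, hE⟩ : ∃ E : ℝ, E = min (T / N) (Real.exp (c * Real.log N / Real.log (Real.log N))) :=
      ⟨_, rfl⟩
    have hE0 : 0 < E := by
      rw [hE]
      exact lt_min (div_pos (by linarith) (by linarith)) (Real.exp_pos _)
    obtain ⟨X, hX⟩ : ∃ X : ℝ, X = ((N : ℝ) + (S.card : ℝ)) * (N : ℝ) := ⟨_, rfl⟩
    have hX0 : 0 < X := by rw [hX]; positivity
    rw [← hE, ← hX] at hcon hS4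
    have hl : 0 < ((Nat.log 2 N : ℝ) + 1) ^ 2 := by positivity
    have h1 := bounded_of_halving (by positivity) hcon a ha
    have h2 : ((Nat.log 2 N : ℝ) + 1) ^ 2 * (δ / 2 * E / ((Nat.log 2 N : ℝ) + 1) ^ 2 * X) =
        δ / 2 * E * X := by
      field_simp
    rw [h2] at h1
    have h3 : δ * E * X ≤ δ / 2 * E * X := hS4.trans h1
    have h4 : 0 < δ * E * X := by positivity
    linarith

end Pool.Agent.Results.MP_71ac24_nt.Factorization
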