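import Pool.Agent.J6H96.SM.All

/-!
# Montgomery's large values conjecture for almost all small perturbations of the integers

Q1 asks for `∑_{t ∈ S} |D(t)|² ≤ C N^ε (N + |S|) N` for all `1`-separated `S ⊂ [0,T]`, `T ≤ N²`, and all
`D(t) = ∑_{n ≤ N} a_n n^{it}`, `|a_n| ≤ 1`. Here the integers `n` are replaced by `n + θ_n`, where the `θ_n` are
independent and uniform in `(0, η]`. With probability at least `1 - N^(-A)` the following holds for
ALL complex coefficients, and for ALL `1`-separated sets `S ⊂ [0, N^B]` (`B` is arbitrary; `B = 2` in Q1):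

`∑_{t ∈ S} |∑_{n ≤ N} a_n (n + θ_n)^{it}|² ≤ C N^ε (|S| + N / η) ∑ |a_n|²`.

So for `η = N^(-ε)` the inequality of Q1, with the loss `N^(2ε)`, holds for almost all perturbations of the
integers of size at most `N^(-ε)`, even with `N` replaced by `∑ |a_n|²` (which is false for the integers
themselves by a power of `N`, see Factorization in the same folder). In particular a counterexample to Q1 must use
the exact positions of the numbers `log n`. For fixed `η > 0` there is only the loss `N^ε`.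

The starting results treat random sets of integers as supports (RandomSupports), random points `t` (SamplingTheorem),
and generic dilates of `S` (SelfTranslates).

Proof. Discretise: `θ_n ∈ {1/q, …, h/q}`, so that `q (n + θ_n)` is a random element of the block `(nq, nq + h]`, and
`D` is up to a factor of modulus one a Dirichlet polynomial on these `N` random integers. As in RandomSupports,
Maurey's method shows that the sums `∑_{t ∈ S} ± x^{it}` are approximated, at all `x` of all blocks, by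
few sums with `m` terms, and a union bound over these shows that the level sets of all dual sums on the random
integers are at most as large as on the average over the blocks, up to logarithms. The average over the
blocks is at most `1/h` times the sum over ALL integers up to `(N+1) q`, for which the inequality of
Halász and Montgomery is sharp, since `√T ≤ h`.
-/

set_option autoImplicit false

namespace Pool.Agent.Results.MP_71ac24_nt.PerturbedIntegers

open Finset MeasureTheory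

/-- `D(t) = ∑_{n=1}^N a_n (n + θ_n)^{it}`; the index `n` of `Fin N` stands for `n + 1`. -/
noncomputable def D {N : ℕ} (θ : Fin N → ℝ) (a : Fin N → ℂ) (t : ℝ) : ℂ :=
  ∑ n : Fin N, a n * Complex.exp (Complex.I * (t : ℂ) * (Real.log ((n : ℕ) + 1 + θ n) : ℂ))

/-- `S` is contained in `[0, T]` and `1`-separated. -/
def Sep (T : ℝ) (S : Finset ℝ) : Prop :=
  (∀ t ∈ S, 0 ≤ t ∧ t ≤ T) ∧ ∀ t ∈ S, ∀ u ∈ S, t ≠ u → 1 ≤ |t - u|

/-- The inequalities for all coefficients and all `1`-separated sets in `[0, N^B]`: the large sieve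
inequality for all complex coefficients, the inequality of Q1 for coefficients bounded by `1`, and
Montgomery's bound for the number of large values. -/
def Good (C ε : ℝ) (N B : ℕ) (η : ℝ) (θ : Fin N → ℝ) : Prop :=
  ∀ (S : Finset ℝ) (a : Fin N → ℂ), Sep ((N : ℝ) ^ B) S →
    (∑ t ∈ S, ‖D θ a t‖ ^ 2 ≤ C * (N : ℝ) ^ ε * (S.card + (N : ℝ) / η) * ∑ n, ‖a n‖ ^ 2) ∧
    ((∀ n, ‖a n‖ ≤ 1) →
      ∑ t ∈ S, ‖D θ a t‖ ^ 2 ≤ C / η * (N : ℝ) ^ ε * ((N : ℝ) + S.card) * N) ∧
    (∀ V : ℝ, 2 * C * (N : ℝ) ^ ε * ∑ n, ‖a n‖ ^ 2 ≤ V ^ 2 → (∀ t ∈ S, V ≤ ‖D θ a t‖) → 0 ≤ V →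
      V ^ 2 * S.card ≤ 2 * C / η * (N : ℝ) ^ ε * N * ∑ n, ‖a n‖ ^ 2)

/-- For all `ε > 0`, `A ≥ 0`, `B` there is `C` such that for all `N ≥ 2` and `N^(-B) ≤ η ≤ 1` the `θ ∈ (0, η]^N` for
which one of the inequalities fails form a set of measure at most `N^(-A) η^N`. -/
theorem result (ε A : ℝ) (hε : 0 < ε) (hA : 0 ≤ A) (B : ℕ) :
    ∃ C : ℝ, 0 < C ∧ ∀ (N : ℕ) (η : ℝ), 2 ≤ N → 1 ≤ η * (N : ℝ) ^ B → η ≤ 1 →
      volume {θ : Fin N → ℝ | (∀ n, 0 < θ n ∧ θ n ≤ η) ∧ ¬ Good C ε N B η θ} ≤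
        ENNReal.ofReal ((N : ℝ) ^ (-A) * η ^ N) := by
  obtain ⟨C, hC, h⟩ := Pool.Agent.J6H96.SM.all ε A hε hA B
  have hC0 : 0 < C := by linarith
  refine ⟨C, hC0, ?_⟩
  intro N η hN hηN hη1
  refine le_trans (measure_mono ?_) (h N η hN hηN hη1)
  rintro θ ⟨hθ, hG⟩
  refine ⟨hθ, fun hC' => hG ?_⟩
  have hN2 : (2 : ℝ) ≤ N := by exact_mod_cast hN
  have hN0 : (0 : ℝ) < N := by linarith
  have hη0 : 0 < η := by
    have hNB : (1 : ℝ) ≤ (N : ℝ) ^ B := one_le_pow₀ (by linarith)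
    by_contra hcon
    push Not at hcon
    nlinarith
  intro S a hS
  have h1 : ∑ t ∈ S, ‖D θ a t‖ ^ 2 ≤
      C * (N : ℝ) ^ ε * (S.card + (N : ℝ) / η) * ∑ n, ‖a n‖ ^ 2 := hC' S a hS.1 hS.2
  have hNε : (0 : ℝ) < (N : ℝ) ^ ε := Real.rpow_pos_of_pos hN0 _
  have hG0 : 0 ≤ ∑ n, ‖a n‖ ^ 2 := sum_nonneg fun _ _ => by positivity
  refine ⟨h1, ?_, ?_⟩
  · intro ha
    have h2 : ∑ n, ‖a n‖ ^ 2 ≤ (N : ℝ) := by
      calc ∑ n, ‖a n‖ ^ 2 ≤ ∑ _n : Fin N, (1 : ℝ) :=
            sum_le_sum fun n _ => pow_le_one₀ (norm_nonneg _) (ha n)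
        _ = N := by simp
    have h3 : (S.card : ℝ) + (N : ℝ) / η ≤ ((N : ℝ) + S.card) / η := by
      rw [add_div]
      have : (S.card : ℝ) ≤ S.card / η := by
        rw [le_div_iff₀ hη0]
        exact mul_le_of_le_one_right (Nat.cast_nonneg _) hη1
      linarith
    calc ∑ t ∈ S, ‖D θ a t‖ ^ 2
        ≤ C * (N : ℝ) ^ ε * (S.card + (N : ℝ) / η) * ∑ n, ‖a n‖ ^ 2 := h1
      _ ≤ C * (N : ℝ) ^ ε * (((N : ℝ) + S.card) / η) * N := by
          apply mul_le_mul (mul_le_mul_of_nonneg_left h3 (by positivity)) h2 hG0 (by positivity)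
      _ = C / η * (N : ℝ) ^ ε * ((N : ℝ) + S.card) * N := by
          field_simp
  · intro V hV hVS hV0
    have h2 : V ^ 2 * S.card ≤ ∑ t ∈ S, ‖D θ a t‖ ^ 2 := by
      calc V ^ 2 * S.card = ∑ _t ∈ S, V ^ 2 := by rw [sum_const, nsmul_eq_mul, mul_comm]
        _ ≤ _ := sum_le_sum fun t ht => pow_le_pow_left₀ hV0 (hVS t ht) 2
    have h3 : 2 * (C * (N : ℝ) ^ ε * ∑ n, ‖a n‖ ^ 2) * S.card ≤ V ^ 2 * S.card := by
      apply mul_le_mul_of_nonneg_right _ (Nat.cast_nonneg _)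
      linarith
    have h4 : C * (N : ℝ) ^ ε * (S.card + (N : ℝ) / η) * ∑ n, ‖a n‖ ^ 2 =
        (C * (N : ℝ) ^ ε * ∑ n, ‖a n‖ ^ 2) * S.card + C / η * (N : ℝ) ^ ε * N * ∑ n, ‖a n‖ ^ 2 := by
      field_simp
    have h5 : 2 * C / η * (N : ℝ) ^ ε * N * ∑ n, ‖a n‖ ^ 2 =
        2 * (C / η * (N : ℝ) ^ ε * N * ∑ n, ‖a n‖ ^ 2) := by ring
    rw [h5]
    linarith

end Pool.Agent.Results.MP_71ac24_nt.PerturbedIntegers
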