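import Mathlib
import Pool.Agent.J6H80.AP.Main

set_option autoImplicit false

/-!
# Montgomery's conjecture for points near few arithmetic progressions, for `T ≤ N^(1+c)`

For every `A ≥ 1` and `0 < μ ≤ 1` there is `c > 0` such that for all complex `a_n`, all `T ≤ N^A` and all
`1`-separated `S ⊂ [0,T]` whose points are within distance `1` of `R` arithmetic progressions of real numbers with
differences at least `N^μ` (arbitrary first terms and differences)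

`∑_{t ∈ S} |D(t)|² ≤ C R (N + T N^(-c)) ∑ |a_n|²`,

while for general `S` only the mean value theorem, with `N + T`, is available. If `T ≤ N^(1+c)` and `R` is bounded
(or `R ≤ N^ε`), this is the inequality of Q1.
-/

namespace Pool.Agent.Results.MP_71ac24_nt.PointsInProgressions

open Finset

/-- `D(t) = ∑_{n ≤ N} a_n n^{it}` -/
noncomputable def D (N : ℕ) (a : ℕ → ℂ) (t : ℝ) : ℂ :=
  ∑ n ∈ Icc 1 N, a n * Complex.exp (Complex.I * (t : ℂ) * (Real.log (n : ℝ) : ℂ))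

/-- Let `A ≥ 1` (for Q1: `A = 2`) and `0 < μ ≤ 1`. There are `c > 0` and `C` such that for all `N`, `R`, all
`0 ≤ T ≤ N^A`, all real `x_r`, `δ_r` with `δ_r ≥ N^μ` (`r < R`), all complex `a_1, …, a_N` and all `1`-separated
`S ⊂ [0,T]` each of whose points has distance at most `1` from a number `x_r + k δ_r` with `r < R` and an integer `k`:
`∑_{t ∈ S} |D(t)|² ≤ C R (N + T N^(-c)) ∑ |a_n|²`; and `∑_{t ∈ S} |D(t)|² ≤ C R (N + |S|) N` if `|a_n| ≤ 1` for all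
`n` and `T ≤ N^(1+c)`. -/
theorem result (A μ : ℝ) (hA : 1 ≤ A) (hμ : 0 < μ) (hμ1 : μ ≤ 1) :
    ∃ c C : ℝ, 0 < c ∧ ∀ (N R : ℕ) (T : ℝ) (x δ : ℕ → ℝ) (a : ℕ → ℂ) (S : Finset ℝ),
      1 ≤ N → 0 ≤ T → T ≤ (N : ℝ) ^ A → (∀ r < R, (N : ℝ) ^ μ ≤ δ r) → (∀ t ∈ S, 0 ≤ t ∧ t ≤ T) →
      (∀ t ∈ S, ∀ u ∈ S, t ≠ u → 1 ≤ |t - u|) →
      (∀ t ∈ S, ∃ r < R, ∃ k : ℤ, |t - (x r + k * δ r)| ≤ 1) →
        (∑ t ∈ S, ‖D N a t‖ ^ 2 ≤ C * R * (N + T * (N : ℝ) ^ (-c)) * ∑ n ∈ Icc 1 N, ‖a n‖ ^ 2) ∧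
        ((∀ n, ‖a n‖ ≤ 1) → T ≤ (N : ℝ) ^ (1 + c) → ∑ t ∈ S, ‖D N a t‖ ^ 2 ≤ C * R * ((N : ℝ) + S.card) * N) := by
  obtain ⟨c, C, hc, hC, h⟩ := Pool.Agent.J6H80.AP.main A μ hA hμ hμ1
  refine ⟨c, 2 * C, hc, ?_⟩
  intro N R T x δ a S hN hT0 hT hδ hS hsep hx
  have hN1 : (1 : ℝ) ≤ N := by exact_mod_cast hN
  have hN0 : (0 : ℝ) < N := by linarith
  have h1 : ∑ t ∈ S, ‖D N a t‖ ^ 2 ≤ C * R * (N + T * (N : ℝ) ^ (-c)) * ∑ n ∈ Icc 1 N, ‖a n‖ ^ 2 :=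
    h N R T x δ a S hN hT0 hT hδ hS hsep hx
  have hW : 0 ≤ ∑ n ∈ Icc 1 N, ‖a n‖ ^ 2 := sum_nonneg fun _ _ => by positivity
  have hR : (0 : ℝ) ≤ R := Nat.cast_nonneg _
  constructor
  · refine h1.trans ?_
    apply mul_le_mul_of_nonneg_right _ hW
    have h2 : 0 ≤ C * R * (N + T * (N : ℝ) ^ (-c)) := by positivity
    linarith
  · intro ha hT1
    have h2 : ∑ n ∈ Icc 1 N, ‖a n‖ ^ 2 ≤ N := by
      calc ∑ n ∈ Icc 1 N, ‖a n‖ ^ 2 ≤ ∑ _n ∈ Icc 1 N, (1 : ℝ) :=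
            sum_le_sum fun n _ => pow_le_one₀ (norm_nonneg _) (ha n)
        _ = N := by simp
    have h3 : T * (N : ℝ) ^ (-c) ≤ N := by
      calc T * (N : ℝ) ^ (-c) ≤ (N : ℝ) ^ (1 + c) * (N : ℝ) ^ (-c) := by gcongr
        _ = N := by
            rw [← Real.rpow_add hN0]
            norm_num
    refine h1.trans ?_
    calc C * R * (N + T * (N : ℝ) ^ (-c)) * ∑ n ∈ Icc 1 N, ‖a n‖ ^ 2 ≤ C * R * (N + N) * N := by gcongr
      _ = 2 * C * R * (N + 0) * N := by ring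
      _ ≤ 2 * C * R * ((N : ℝ) + S.card) * N := by
          have h4 : (0 : ℝ) ≤ S.card := Nat.cast_nonneg _
          gcongr

end Pool.Agent.Results.MP_71ac24_nt.PointsInProgressions
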