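import Mathlib
import Pool.Agent.J6H80.ML.Main

set_option autoImplicit false

/-!
# Montgomery's conjecture for Dirichlet polynomials supported on the values of polynomials

For every `A ≥ 1`, `K ≥ 1`, `0 < μ ≤ 1` there is `c > 0` such that the inequality of Q1 holds, without the loss
`N^ε` and for all `T ≤ N^A`, for all coefficients bounded by `1` supported on the union of any arcs in `[N/2, N]` with
at most `N^(1/2+c)` elements together, and of any `N^(1/2)` further integers of `[N/2, N]`. An arc is the set of the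
values at `L ≥ N^μ` consecutive integers of a polynomial of degree at most `K` which is integer-valued there and not
nearly constant: the largest value is at least `1 + N^(-c)` times the smallest one. The polynomials are arbitrary:
their roots and coefficients are not restricted, and they may vary with `N`.
-/

namespace Pool.Agent.Results.MP_71ac24_nt.PolynomialValues

open Finset Polynomial

/-- `D(t) = ∑_{n ≤ N} a_n n^{it}` -/
noncomputable def D (N : ℕ) (a : ℕ → ℂ) (t : ℝ) : ℂ :=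
  ∑ n ∈ Icc 1 N, a n * Complex.exp (Complex.I * (t : ℂ) * (Real.log (n : ℝ) : ℂ))

/-- The real polynomial `p` of degree at most `K` takes integer values in `[N/2, N]` at `0, 1, …, L - 1`, where
`L ≥ N^μ`, and its value at one of these points is at least `1 + N^(-c)` times its value at another one. -/
structure Arc (N K : ℕ) (μ c : ℝ) (p : ℝ[X]) (L : ℕ) : Prop where
  deg : p.natDegree ≤ K
  long : (N : ℝ) ^ μ ≤ L
  val : ∀ d < L, ∃ n : ℕ, (n : ℝ) = p.eval (d : ℝ) ∧ N ≤ 2 * n ∧ n ≤ N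
  var : ∃ i < L, ∃ j < L, (1 + (N : ℝ) ^ (-c)) * p.eval (i : ℝ) ≤ p.eval (j : ℝ)

/-- `n` is one of the values `p_j(0), …, p_j(L_j - 1)`, `j ∈ J`, or an element of `E` -/
def Supp (J : Finset ℕ) (p : ℕ → ℝ[X]) (L : ℕ → ℕ) (E : Finset ℕ) (n : ℕ) : Prop :=
  n ∈ E ∨ ∃ j ∈ J, ∃ d < L j, (n : ℝ) = (p j).eval (d : ℝ)

/-- Let `A ≥ 1` (for Q1: `A = 2`), `K ≥ 1`, `0 < μ ≤ 1`. There are `c > 0` and `C` such that for all `T ≤ N^A`, all
arcs `(p_j, L_j)`, `j ∈ J`, with `∑ L_j ≤ N^(1/2+c)`, all `E` with at most `N^(1/2)` elements, all complex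
`a_1, …, a_N` vanishing outside the integers of `[N/2, N]` on one of the arcs or in `E`, and all `1`-separated
`S ⊂ [0,T]`: `∑_{t ∈ S} |D(t)|² ≤ C (N + |S|) N` if `|a_n| ≤ 1` for all `n`; and
`∑_{t ∈ S} |D(t)|² ≤ C (N^(3/2-c) + |S| N^(1/2-c)) ∑ |a_n|²` if `E` is empty. -/
theorem result (A μ : ℝ) (K : ℕ) (hA : 1 ≤ A) (hμ : 0 < μ) (hμ1 : μ ≤ 1) (hK : 1 ≤ K) :
    ∃ c C : ℝ, 0 < c ∧ ∀ (N : ℕ) (J : Finset ℕ) (p : ℕ → ℝ[X]) (L : ℕ → ℕ) (E : Finset ℕ) (T : ℝ) (a : ℕ → ℂ),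
      1 ≤ N → (∀ j ∈ J, Arc N K μ c (p j) (L j)) → ∑ j ∈ J, (L j : ℝ) ≤ (N : ℝ) ^ (1 / 2 + c) →
      (E.card : ℝ) ≤ (N : ℝ) ^ (1 / 2 : ℝ) → T ≤ (N : ℝ) ^ A →
      (∀ n ∈ Icc 1 N, a n ≠ 0 → N ≤ 2 * n ∧ Supp J p L E n) →
      ∀ S : Finset ℝ, (∀ t ∈ S, 0 ≤ t ∧ t ≤ T) → (∀ t ∈ S, ∀ u ∈ S, t ≠ u → 1 ≤ |t - u|) →
        ((∀ n, ‖a n‖ ≤ 1) → ∑ t ∈ S, ‖D N a t‖ ^ 2 ≤ C * ((N : ℝ) + S.card) * N) ∧
        (E = ∅ → ∑ t ∈ S, ‖D N a t‖ ^ 2 ≤
          C * ((N : ℝ) ^ (3 / 2 - c) + S.card * (N : ℝ) ^ (1 / 2 - c)) * ∑ n ∈ Icc 1 N, ‖a n‖ ^ 2) := by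
  obtain ⟨c, C, hc0, hC0, h⟩ := Pool.Agent.J6H80.ML.onOne A μ K hA hμ hμ1 hK
  refine ⟨c, C, hc0, ?_⟩
  intro N J p L E T a hN hJ hL hE hT hs S hS hsep
  exact h N J p L E hN (fun j hj => ⟨(hJ j hj).deg, (hJ j hj).long, (hJ j hj).val, (hJ j hj).var⟩) hL hE T 0 S a hT
    hsep (fun t ht => ⟨(hS t ht).1, by linarith [(hS t ht).2]⟩) hs

end Pool.Agent.Results.MP_71ac24_nt.PolynomialValues
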